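import Pool.Agent.K7.H37.UK.Stm

set_option autoImplicit false

namespace Pool.Agent.K7.H37.UK.AnnJ

open Pool.Agent.K7.H37.UK

def tag : List Entry → List (Entry × ℕ)
  | [] => []
  | x :: A => (x, A.length) :: tag A

theorem tag_map (A : List Entry) : (tag A).map Prod.fst = A := by
  induction A with
  | nil => rfl
  | cons x A ih => simp [tag, ih]

theorem tag_lt (A : List Entry) : ∀ t ∈ tag A, t.2 < A.length := by
  induction A with
  | nil => intro t ht; simp [tag] at ht
  | cons x A ih =>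
    intro t ht
    simp only [tag, List.mem_cons] at ht
    rcases ht with rfl | ht
    · simp
    · have := ih t ht
      simp only [List.length_cons]
      omega

theorem tag_pw (A : List Entry) : (tag A).Pairwise (fun y x => x.2 < y.2) := by
  induction A with
  | nil => exact List.Pairwise.nil
  | cons x A ih =>
    refine List.Pairwise.cons ?_ ih
    intro t ht
    exact tag_lt A t ht

def off (N r j : ℕ) : ℤ := if r = 0 then j else if r = 1 then -j else j - 2 * N

def g (σ : ℤ) (N : ℕ) (t : Entry × ℕ) : ℤ := (4 * N + 4) * t.1.2.1 + σ * off N t.1.2.2 t.2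

structure Rel (σ s0 : ℤ) (y x : Entry × ℕ) : Prop where
  ne : y.1.1 ≠ x.1.1
  lt : x.2 < y.2
  mono : x.1.2.2 ≤ y.1.2.2
  m0 : y.1.2.2 = 0 → x.1.2.2 = 0 → σ * x.1.2.1 ≤ σ * y.1.2.1
  m1 : y.1.2.2 = 1 → x.1.2.2 = 1 → σ * y.1.2.1 ≤ σ * x.1.2.1
  m2 : y.1.2.2 = 2 → x.1.2.2 = 2 → σ * x.1.2.1 ≤ σ * y.1.2.1

structure Pt (σ s0 : ℤ) (N : ℕ) (x : Entry × ℕ) : Prop where
  lt : x.2 < N
  close : |lev x.1.1 - x.1.2.1| ≤ 1
  le : x.1.2.2 ≤ 2
  b0 : x.1.2.2 = 0 → σ * s0 ≤ σ * x.1.2.1
  b2 : x.1.2.2 = 2 → σ * x.1.2.1 ≤ σ * s0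

theorem pw {σ s0 : ℤ} {A : List Entry} (h : Ann σ s0 A) : (tag A).Pairwise (Rel σ s0) := by
  have tr : ∀ R : Entry → Entry → Prop, A.Pairwise R →
      (tag A).Pairwise (fun y x => R y.1 x.1) := by
    intro R hR
    have : ((tag A).map Prod.fst).Pairwise R := by rw [tag_map]; exact hR
    exact List.pairwise_map.1 this
  have hn : A.Pairwise (fun y x => y.1 ≠ x.1) := List.pairwise_map.1 h.nodup
  have := ((((tr _ hn).and (tag_pw A)).and (tr _ h.run_mono)).and
    ((tr _ h.mono0).and (tr _ h.mono1))).and (tr _ h.mono2)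
  refine this.imp ?_
  rintro y x ⟨⟨⟨⟨h1, h2⟩, h3⟩, h4, h5⟩, h6⟩
  exact ⟨h1, h2, h3, h4, h5, h6⟩

theorem pts {σ s0 : ℤ} {A : List Entry} (h : Ann σ s0 A) : ∀ t ∈ tag A, Pt σ s0 A.length t := by
  intro t ht
  have hm : t.1 ∈ A := by
    have : t.1 ∈ (tag A).map Prod.fst := List.mem_map_of_mem ht
    rwa [tag_map] at this
  exact ⟨tag_lt A t ht, h.close _ hm, h.run_le _ hm, h.base0 _ hm, h.base2 _ hm⟩

/-- order of `σ g` -/
theorem ord {σ s0 : ℤ} {N : ℕ} (hσ : σ = 1 ∨ σ = -1) {y x : Entry × ℕ} (hR : Rel σ s0 y x)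
    (hy : Pt σ s0 N y) (hx : Pt σ s0 N x) :
    (x.1.2.2 = 0 → y.1.2.2 = 0 → σ * g σ N x < σ * g σ N y) ∧
    (x.1.2.2 = 1 → y.1.2.2 = 1 → σ * g σ N y < σ * g σ N x) ∧
    (x.1.2.2 = 2 → y.1.2.2 = 2 → σ * g σ N x < σ * g σ N y) ∧
    (x.1.2.2 = 0 → y.1.2.2 = 2 → σ * g σ N y < σ * g σ N x) := by
  have hs : ∀ t : Entry × ℕ, σ * g σ N t = (4 * N + 4) * (σ * t.1.2.1) + off N t.1.2.2 t.2 := by
    intro t
    have : σ * σ = 1 := by rcases hσ with rfl | rfl <;> norm_num
    unfold g
    linear_combination (off N t.1.2.2 t.2) * this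
  rw [hs, hs]
  have hlt := hR.lt
  have hyN := hy.lt
  have hxN := hx.lt
  have hN : (0 : ℤ) ≤ 4 * N + 4 := by positivity
  refine ⟨?_, ?_, ?_, ?_⟩
  · intro h1 h2
    have := mul_le_mul_of_nonneg_left (hR.m0 h2 h1) hN
    simp only [off, h1, h2, if_true]
    omega
  · intro h1 h2
    have := mul_le_mul_of_nonneg_left (hR.m1 h2 h1) hN
    simp only [off, h1, h2, if_true]
    norm_num
    omega
  · intro h1 h2
    have := mul_le_mul_of_nonneg_left (hR.m2 h2 h1) hN
    simp only [off, h1, h2]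
    norm_num
    omega
  · intro h1 h2
    have := mul_le_mul_of_nonneg_left ((hy.b2 h2).trans (hx.b0 h1)) hN
    simp only [off, h1, h2]
    norm_num
    omega

theorem pair_cases {α : Type} {R : α → α → Prop} {l : List α} (hl : l.Pairwise R) {x y : α}
    (hx : x ∈ l) (hy : y ∈ l) : x = y ∨ R x y ∨ R y x := by
  induction l with
  | nil => simp at hx
  | cons z l ih =>
    rw [List.pairwise_cons] at hl
    rcases List.mem_cons.1 hx with rfl | hx'
    · rcases List.mem_cons.1 hy with rfl | hy'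
      · exact Or.inl rfl
      · exact Or.inr (Or.inl (hl.1 _ hy'))
    · rcases List.mem_cons.1 hy with rfl | hy'
      · exact Or.inr (Or.inr (hl.1 _ hx'))
      · exact ih hl.2 hx' hy'

theorem noalt4 (e c b a re rc rb ra : ℤ) (h1 : 0 ≤ re) (h2 : re ≤ rc) (h3 : rc ≤ rb) (h4 : rb ≤ ra)
    (h5 : ra ≤ 2)
    (hec0 : re = 0 → rc = 0 → e < c) (hec1 : re = 1 → rc = 1 → c < e)
    (hec2 : re = 2 → rc = 2 → e < c)
    (hcb0 : rc = 0 → rb = 0 → c < b) (hcb1 : rc = 1 → rb = 1 → b < c)
    (hcb2 : rc = 2 → rb = 2 → c < b)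
    (hba0 : rb = 0 → ra = 0 → b < a) (hba1 : rb = 1 → ra = 1 → a < b)
    (hba2 : rb = 2 → ra = 2 → b < a) (hea : re = 0 → ra = 2 → a < e) :
    ¬ (a < b ∧ c < b ∧ c < e ∧ a < e) ∧ ¬ (b < a ∧ b < c ∧ e < c ∧ e < a) := by
  constructor
  · rintro ⟨p1, p2, p3, p4⟩
    omega
  · rintro ⟨p1, p2, p3, p4⟩
    omega

theorem ANN : StAnn := by
  intro σ s0 A hσ h
  refine ⟨h.nodup, h.chain, ?_⟩
  classical
  have hpw := pw h
  have hpt := pts h
  set N := A.length with hN
  let H : V → ℤ := fun v => (((tag A).find? (fun t => decide (t.1.1 = v))).map (g σ N)).getD 0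
  have hfind : ∀ t ∈ tag A, (tag A).find? (fun s => decide (s.1.1 = t.1.1)) = some t := by
    have : ∀ l : List (Entry × ℕ), l.Pairwise (Rel σ s0) → ∀ t ∈ l,
        l.find? (fun s => decide (s.1.1 = t.1.1)) = some t := by
      intro l
      induction l with
      | nil => intro _ t ht; simp at ht
      | cons y l ih =>
        intro hl t ht
        rw [List.pairwise_cons] at hl
        rcases List.mem_cons.1 ht with rfl | ht
        · simp [List.find?]
        · have hne : y.1.1 ≠ t.1.1 := (hl.1 t ht).ne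
          simp only [List.find?, hne, decide_false]
          exact ih hl.2 t ht
    exact this _ hpw
  have hH : ∀ t ∈ tag A, H t.1.1 = g σ N t := by
    intro t ht
    simp only [H, hfind t ht, Option.map_some, Option.getD_some]
  have hmem : ∀ a ∈ A.map Prod.fst, ∃ t ∈ tag A, t.1.1 = a := by
    intro a ha
    obtain ⟨x, hx, rfl⟩ := List.mem_map.1 ha
    have : x ∈ (tag A).map Prod.fst := by rw [tag_map]; exact hx
    obtain ⟨t, ht, rfl⟩ := List.mem_map.1 this
    exact ⟨t, ht, rfl⟩
  have hoff : ∀ t ∈ tag A, -(2 * (N : ℤ)) ≤ off N t.1.2.2 t.2 ∧ off N t.1.2.2 t.2 < N := by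
    intro t ht
    have := (hpt t ht).lt
    unfold off
    split_ifs <;> omega
  refine ⟨H, ?_, ?_, ?_⟩
  · have key : ∀ t ∈ tag A, ∀ s ∈ tag A, Rel σ s0 s t → g σ N s ≠ g σ N t := by
      intro t ht s hs hR heq
      have o1 := hoff t ht
      have o2 := hoff s hs
      have hM : (4 * (N : ℤ) + 4) * (s.1.2.1 - t.1.2.1) =
          σ * (off N t.1.2.2 t.2 - off N s.1.2.2 s.2) := by
        unfold g at heq
        linear_combination heq
      have hd : s.1.2.1 - t.1.2.1 = 0 := by
        by_contra hne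
        have h1 : (4 * (N : ℤ) + 4) * 1 ≤ |(4 * (N : ℤ) + 4) * (s.1.2.1 - t.1.2.1)| := by
          rw [abs_mul, abs_of_nonneg (by positivity : (0 : ℤ) ≤ 4 * N + 4)]
          exact mul_le_mul_of_nonneg_left (Int.one_le_abs hne) (by positivity)
        rw [hM, abs_mul] at h1
        have h2 : |σ| = 1 := by rcases hσ with rfl | rfl <;> norm_num
        rw [h2, one_mul] at h1
        have h3 : |off N t.1.2.2 t.2 - off N s.1.2.2 s.2| < 3 * N + 1 := by
          rw [abs_lt]; constructor <;> omega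
        omega
      rw [hd, mul_zero] at hM
      have ho : off N t.1.2.2 t.2 = off N s.1.2.2 s.2 := by
        rcases hσ with rfl | rfl <;> omega
      have l1 := hR.lt
      have l2 := hR.mono
      have l3 := (hpt s hs).le
      have l4 := (hpt s hs).lt
      have l5 := (hpt t ht).lt
      unfold off at ho
      split_ifs at ho <;> omega
    intro a ha b hb hab
    obtain ⟨t, ht, rfl⟩ := hmem a ha
    obtain ⟨s, hs, rfl⟩ := hmem b hb
    rw [hH t ht, hH s hs]
    have hts : t ≠ s := by rintro rfl; exact hab rfl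
    rcases pair_cases hpw ht hs with e | hR | hR
    · exact absurd e hts
    · exact key s hs t ht hR
    · exact (key t ht s hs hR).symm
  · intro a ha b hb hab
    obtain ⟨t, ht, rfl⟩ := hmem a ha
    obtain ⟨s, hs, rfl⟩ := hmem b hb
    rw [hH t ht, hH s hs]
    obtain ⟨m, hm, hi⟩ := hab
    have hl : lev s.1.1 = lev t.1.1 + 3 * m := by
      unfold lev
      rw [hi 0, hi 1, hi 2]; ring
    have c1 := abs_le.1 (hpt t ht).close
    have c2 := abs_le.1 (hpt s hs).close
    have hh : t.1.2.1 + 1 ≤ s.1.2.1 := by omega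
    have o1 := hoff t ht
    have o2 := hoff s hs
    have := mul_le_mul_of_nonneg_left hh (by positivity : (0 : ℤ) ≤ 4 * N + 4)
    unfold g
    rcases hσ with rfl | rfl <;> nlinarith
  · have hmap : (A.map Prod.fst).map H = (tag A).map (g σ N) := by
      have : A.map Prod.fst = (tag A).map (fun t => t.1.1) := by
        conv_lhs => rw [← tag_map A]
        rw [List.map_map]; rfl
      rw [this, List.map_map]
      exact List.map_congr_left fun t ht => hH t ht
    rw [hmap]
    intro a b c e hsub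
    obtain ⟨l, hl, hle⟩ := List.sublist_map_iff.1 hsub
    match l, hle with
    | [ta, tb, tc, te], hle =>
      simp only [List.map_cons, List.map_nil, List.cons.injEq, and_true] at hle
      obtain ⟨rfl, rfl, rfl, rfl⟩ := hle
      have hp := hpw.sublist hl
      simp only [List.pairwise_cons, List.mem_cons, List.not_mem_nil, or_false, forall_eq_or_imp,
        forall_eq] at hp
      have ma : ta ∈ tag A := hl.subset (by simp)
      have mb : tb ∈ tag A := hl.subset (by simp)
      have mc : tc ∈ tag A := hl.subset (by simp)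
      have me : te ∈ tag A := hl.subset (by simp)
      obtain ⟨⟨Rab, Rac, Rae⟩, ⟨Rbc, Rbe⟩, Rce, -⟩ := hp
      have Oab := ord hσ Rab (hpt _ ma) (hpt _ mb)
      have Obc := ord hσ Rbc (hpt _ mb) (hpt _ mc)
      have Oce := ord hσ Rce (hpt _ mc) (hpt _ me)
      have Oae := ord hσ Rae (hpt _ ma) (hpt _ me)
      have q1 := Rab.mono
      have q2 := Rbc.mono
      have q3 := Rce.mono
      have q4 := (hpt _ ma).le
      have main := noalt4 (σ * g σ N te) (σ * g σ N tc) (σ * g σ N tb) (σ * g σ N ta)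
        te.1.2.2 tc.1.2.2 tb.1.2.2 ta.1.2.2 (by positivity) (by exact_mod_cast q3)
        (by exact_mod_cast q2) (by exact_mod_cast q1) (by exact_mod_cast q4)
        (by intro u v; exact Oce.1 (by exact_mod_cast u) (by exact_mod_cast v))
        (by intro u v; exact Oce.2.1 (by exact_mod_cast u) (by exact_mod_cast v))
        (by intro u v; exact Oce.2.2.1 (by exact_mod_cast u) (by exact_mod_cast v))
        (by intro u v; exact Obc.1 (by exact_mod_cast u) (by exact_mod_cast v))
        (by intro u v; exact Obc.2.1 (by exact_mod_cast u) (by exact_mod_cast v))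
        (by intro u v; exact Obc.2.2.1 (by exact_mod_cast u) (by exact_mod_cast v))
        (by intro u v; exact Oab.1 (by exact_mod_cast u) (by exact_mod_cast v))
        (by intro u v; exact Oab.2.1 (by exact_mod_cast u) (by exact_mod_cast v))
        (by intro u v; exact Oab.2.2.1 (by exact_mod_cast u) (by exact_mod_cast v))
        (by intro u v; exact Oae.2.2.2 (by exact_mod_cast u) (by exact_mod_cast v))
      rcases hσ with rfl | rfl
      · simpa using main
      · simp only [neg_mul, one_mul, neg_lt_neg_iff] at main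
        exact ⟨fun hh => main.2 ⟨hh.1, hh.2.1, hh.2.2.1, hh.2.2.2⟩,
          fun hh => main.1 ⟨hh.1, hh.2.1, hh.2.2.1, hh.2.2.2⟩⟩

end Pool.Agent.K7.H37.UK.AnnJ
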