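import Pool.Agent.K7.H37.UK.Stm

set_option autoImplicit false

namespace Pool.Agent.K7.H37.UK

theorem adj_ne {p q : V} (h : Adj p q) : p ≠ q := by
  rintro rfl
  unfold Adj at h
  simp at h

theorem adj_symm {p q : V} (h : Adj p q) : Adj q p := by
  unfold Adj at h ⊢
  rw [abs_sub_comm (q 0), abs_sub_comm (q 1), abs_sub_comm (q 2)]
  exact h

/-- the points of the box -/
noncomputable def boxF (d : Fin 3 → ℕ) : Finset V := Fintype.piFinset fun i => Finset.Icc (0 : ℤ) (d i)

theorem mem_boxF {d : Fin 3 → ℕ} {p : V} : p ∈ boxF d ↔ InBox d p := by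
  simp [boxF, InBox]

theorem length_le {d : Fin 3 → ℕ} {P : List V} (hn : P.Nodup) (hb : ∀ v ∈ P, InBox d v) :
    P.length ≤ (boxF d).card := by
  rw [← List.toFinset_card_of_nodup hn]
  refine Finset.card_le_card fun v hv => ?_
  exact mem_boxF.2 (hb v (List.mem_toFinset.1 hv))

theorem nresp {d : Fin 3 → ℕ} {Inv : List V → Prop}
    (h3 : ∀ P, Inv P → GoodPath P ∧ ∀ v ∈ P, InBox d v)
    (h4 : ∀ (u : V) (rest : List V) (v : V), Inv (u :: rest) → InBox d v → Adj u v → v ∉ u :: rest →
      GoodPath (v :: u :: rest) ∧ ∃ w, InBox d w ∧ Adj v w ∧ w ≠ u ∧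
      (w ∉ v :: u :: rest → Inv (w :: v :: u :: rest)))
    (hL : StLoop) (n : ℕ) :
    ∀ (u : V) (rest : List V), Inv (u :: rest) → (boxF d).card - (u :: rest).length ≤ n →
      ∀ v, InBox d v → Adj u v → v ∉ u :: rest → NForces d true (v :: u :: rest) := by
  induction n with
  | zero =>
    intro u rest hI hn v hv huv hvn
    exfalso
    obtain ⟨⟨hnd, -⟩, hb⟩ := h3 _ hI
    have h1 : (v :: u :: rest).length ≤ (boxF d).card := by
      refine length_le (List.nodup_cons.2 ⟨hvn, hnd⟩) ?_
      intro x hx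
      rcases List.mem_cons.1 hx with rfl | hx
      · exact hv
      · exact hb x hx
    simp only [List.length_cons] at h1 hn
    omega
  | succ n ih =>
    intro u rest hI hn v hv huv hvn
    obtain ⟨hG, w, hw, hvw, hwu, hnext⟩ := h4 u rest v hI hv huv hvn
    have hleg : Legal d (v :: u :: rest) w := ⟨v, u, rest, rfl, hw, hvw, hwu⟩
    by_cases hmem : w ∈ v :: u :: rest
    · exact NForces.nclose _ w hleg hmem (hL v u rest w hG hvw hwu hmem)
    · refine NForces.nmove _ w hleg hmem ?_
      have hI' := hnext hmem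
      refine NForces.kturn _ ?_ ?_
      · rintro x ⟨v', u', rest', he, hx, hadj, hne⟩ hxm
        have he1 : v' = w := (List.cons.inj he).1.symm
        have he2 : u' = v := (List.cons.inj (List.cons.inj he).2).1.symm
        have he3 : rest' = u :: rest := (List.cons.inj (List.cons.inj he).2).2.symm
        subst he1 he2 he3
        exact hL _ _ _ x (h3 _ hI').1 hadj hne hxm
      · rintro x ⟨v', u', rest', he, hx, hadj, hne⟩ hxm
        have he1 : v' = w := (List.cons.inj he).1.symm
        subst he1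
        refine ih _ _ hI' ?_ x hx hadj hxm
        simp only [List.length_cons] at hn ⊢
        omega

/-- job GAME -/
theorem GAME : StGame := by
  intro hS hL d hd
  obtain ⟨Inv, h1, h2, h3, h4⟩ := hS d hd
  constructor
  · intro p q hp hq hpq
    have hI := h1 p hp
    have hqp : q ∉ [p] := by
      simpa using (adj_ne hpq).symm
    obtain ⟨hG, w, hw, hqw, hwp, hnext⟩ := h4 p [] q hI hq hpq hqp
    have hwn : w ∉ [q, p] := by
      simp only [List.mem_cons, List.not_mem_nil, or_false, not_or]
      exact ⟨(adj_ne hqw).symm, hwp⟩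
    refine ⟨p, q, w, Or.inl ⟨rfl, rfl⟩, hw, hqw, hwp, ?_⟩
    have hI' := hnext hwn
    refine NForces.kturn _ ?_ ?_
    · rintro x ⟨v', u', rest', he, hx, hadj, hne⟩ hxm
      have he1 : v' = w := (List.cons.inj he).1.symm
      have he2 : u' = q := (List.cons.inj (List.cons.inj he).2).1.symm
      have he3 : rest' = [p] := (List.cons.inj (List.cons.inj he).2).2.symm
      subst he1 he2 he3
      exact hL _ _ _ x (h3 _ hI').1 hadj hne hxm
    · rintro x ⟨v', u', rest', he, hx, hadj, hne⟩ hxm
      have he1 : v' = w := (List.cons.inj he).1.symm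
      subst he1
      exact nresp h3 h4 hL _ _ _ hI' le_rfl x hx hadj hxm
  · have hb0 : InBox d (0 : V) := fun i => ⟨le_rfl, by simp⟩
    have hb1 : InBox d (Pi.single 0 1 : V) := by
      intro i
      fin_cases i
      · simp only [Fin.zero_eta, Pi.single_eq_same]
        exact ⟨by norm_num, by exact_mod_cast hd 0⟩
      · simp [Pi.single_apply]
      · simp [Pi.single_apply]
    have hadj : Adj (0 : V) (Pi.single 0 1 : V) := by
      unfold Adj
      simp [Pi.single_apply]
    refine ⟨0, Pi.single 0 1, hb0, hb1, hadj, ?_⟩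
    intro v0 v1 v2 hv hb2 h12 h20
    have hkey : InBox d v0 ∧ InBox d v1 ∧ Adj v0 v1 := by
      rcases hv with ⟨rfl, rfl⟩ | ⟨rfl, rfl⟩
      · exact ⟨hb0, hb1, hadj⟩
      · exact ⟨hb1, hb0, adj_symm hadj⟩
    have hI := h2 v0 v1 hkey.1 hkey.2.1 hkey.2.2
    refine nresp h3 h4 hL _ _ _ hI le_rfl v2 hb2 h12 ?_
    simp only [List.mem_cons, List.not_mem_nil, or_false, not_or]
    exact ⟨(adj_ne h12).symm, h20⟩

end Pool.Agent.K7.H37.UK
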