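import Mathlib

/-!
# Ulam's knot game on box lattices (MP_fb72b7_co): definitions and the Props of the joint project UK
-/

set_option autoImplicit false

noncomputable section

namespace Pool.Agent.K7.H37.UK

open Set

/-! ## Final definitions (game, knots) -/

/-- lattice points -/
abbrev V : Type := Fin 3 → ℤ

/-- ℝ³ -/
abbrev R3 : Type := Fin 3 → ℝ

/-- neighbours in the cubic lattice -/
def Adj (p q : V) : Prop := |p 0 - q 0| + |p 1 - q 1| + |p 2 - q 2| = 1

/-- the vertices of the box lattice with side lengths `d 0, d 1, d 2` -/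
def InBox (d : Fin 3 → ℕ) (p : V) : Prop := ∀ i, 0 ≤ p i ∧ p i ≤ d i

/-- a lattice point as a point of ℝ³ -/
def pt (p : V) : R3 := fun i => (p i : ℝ)

/-- ambient isotopy of subsets of a space -/
def AmbIso {X : Type} [TopologicalSpace X] (A B : Set X) : Prop :=
  ∃ H : unitInterval → (X ≃ₜ X), Continuous (fun p : unitInterval × X => H p.1 p.2) ∧
    (∀ x, H 0 x = x) ∧ H 1 '' A = B

/-- round circles of ℝ³ -/
def RoundCircle (C : Set R3) : Prop :=
  ∃ c a b : R3, a ≠ 0 ∧ a 0 * b 0 + a 1 * b 1 + a 2 * b 2 = 0 ∧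
    a 0 ^ 2 + a 1 ^ 2 + a 2 ^ 2 = b 0 ^ 2 + b 1 ^ 2 + b 2 ^ 2 ∧
    C = {x | ∃ θ : ℝ, x = c + Real.cos θ • a + Real.sin θ • b}

/-- unknotted: ambient isotopic to a round circle -/
def Unknotted (S : Set R3) : Prop := ∃ C, RoundCircle C ∧ AmbIso S C

/-- the closed polygon with the given list of vertices -/
def poly {E : Type} [AddCommGroup E] [Module ℝ E] (l : List E) : Set E :=
  {x | ∃ e ∈ l.zip (l.rotate 1), x ∈ segment ℝ e.1 e.2}

/-- the closed polygon that arises when the growing end of `path` (its head) moves to the visited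
vertex `w`: its vertices are the vertices of the path from the growing end back to `w` -/
def loop (path : List V) (w : V) : List V := path.takeWhile (fun v => decide (v ≠ w)) ++ [w]

/-- legal moves at a position with at least one marked edge, the path being listed with its growing
end `v` first and `u` before it: mark an edge `v w` of the box other than `v u` -/
def Legal (d : Fin 3 → ℕ) (path : List V) (w : V) : Prop :=
  ∃ v u rest, path = v :: u :: rest ∧ InBox d w ∧ Adj v w ∧ w ≠ u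

/-- `NForces d true path`: N, to move at the position `path`, can force a win.
`NForces d false path`: the same with K to move. -/
inductive NForces (d : Fin 3 → ℕ) : Bool → List V → Prop
  | nclose (path : List V) (w : V) : Legal d path w → w ∈ path →
      Unknotted (poly ((loop path w).map pt)) → NForces d true path
  | nmove (path : List V) (w : V) : Legal d path w → w ∉ path →
      NForces d false (w :: path) → NForces d true path
  | kturn (path : List V) :
      (∀ w, Legal d path w → w ∈ path → Unknotted (poly ((loop path w).map pt))) →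
      (∀ w, Legal d path w → w ∉ path → NForces d true (w :: path)) → NForces d false path

/-- K marks the first edge: N wins -/
def NWinsKFirst (d : Fin 3 → ℕ) : Prop :=
  ∀ p q : V, InBox d p → InBox d q → Adj p q →
    ∃ v0 v1 v2 : V, ((v0 = p ∧ v1 = q) ∨ (v0 = q ∧ v1 = p)) ∧ InBox d v2 ∧ Adj v1 v2 ∧ v2 ≠ v0 ∧
      NForces d false [v2, v1, v0]

/-- N marks the first edge: N wins -/
def NWinsNFirst (d : Fin 3 → ℕ) : Prop :=
  ∃ p q : V, InBox d p ∧ InBox d q ∧ Adj p q ∧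
    ∀ v0 v1 v2 : V, ((v0 = p ∧ v1 = q) ∨ (v0 = q ∧ v1 = p)) → InBox d v2 → Adj v1 v2 → v2 ≠ v0 →
      NForces d true [v2, v1, v0]

/-- the final theorem -/
def StFinal : Prop := ∀ d : Fin 3 → ℕ, (∀ i, 1 ≤ d i) → NWinsKFirst d ∧ NWinsNFirst d

/-! ## Combinatorial part -/

/-- the level of a lattice point -/
def lev (p : V) : ℤ := p 0 + p 1 + p 2

/-- no alternating quadruple (low high low high or high low high low) -/
def NoAlt {α : Type} [LT α] (l : List α) : Prop :=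
  ∀ a b c e : α, [a, b, c, e].Sublist l →
    ¬ (a < b ∧ c < b ∧ c < e ∧ a < e) ∧ ¬ (b < a ∧ b < c ∧ e < c ∧ e < a)

/-- `b` is strictly above `a` on the same line in the direction (1,1,1) -/
def Above (a b : V) : Prop := ∃ m : ℤ, 0 < m ∧ ∀ i, b i = a i + m

/-- heights with the required properties -/
def Heights (P : List V) (H : V → ℤ) : Prop :=
  (∀ a ∈ P, ∀ b ∈ P, a ≠ b → H a ≠ H b) ∧ (∀ a ∈ P, ∀ b ∈ P, Above a b → H a < H b) ∧
    NoAlt (P.map H)

/-- a simple lattice path with good heights -/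
def GoodPath (P : List V) : Prop :=
  P.Nodup ∧ P.IsChain Adj ∧ ∃ H : V → ℤ, Heights P H

/-- an annotated path, newest first: vertex, home level, number of the run (0, 1, 2) -/
abbrev Entry : Type := V × ℤ × ℕ

/-- annotation rules; `σ = 1` or `-1`: run 0 moves in direction `σ`, run 1 in direction `-σ`, run 2
in direction `σ` again -/
structure Ann (σ s0 : ℤ) (A : List Entry) : Prop where
  nodup : (A.map Prod.fst).Nodup
  chain : (A.map Prod.fst).IsChain Adj
  close : ∀ x ∈ A, |lev x.1 - x.2.1| ≤ 1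
  run_le : ∀ x ∈ A, x.2.2 ≤ 2
  run_mono : A.Pairwise (fun y x => x.2.2 ≤ y.2.2)
  mono0 : A.Pairwise (fun y x => y.2.2 = 0 → x.2.2 = 0 → σ * x.2.1 ≤ σ * y.2.1)
  mono1 : A.Pairwise (fun y x => y.2.2 = 1 → x.2.2 = 1 → σ * y.2.1 ≤ σ * x.2.1)
  mono2 : A.Pairwise (fun y x => y.2.2 = 2 → x.2.2 = 2 → σ * x.2.1 ≤ σ * y.2.1)
  base0 : ∀ x ∈ A, x.2.2 = 0 → σ * s0 ≤ σ * x.2.1
  base2 : ∀ x ∈ A, x.2.2 = 2 → σ * x.2.1 ≤ σ * s0

/-- job ANN -/
def StAnn : Prop := ∀ (σ s0 : ℤ) (A : List Entry), (σ = 1 ∨ σ = -1) → Ann σ s0 A →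
  GoodPath (A.map Prod.fst)

/-- `x` lies on the box edge through the origin in direction `j` (all other coordinates minimal) -/
def Bot (x : V) : Prop := ∃ j : Fin 3, ∀ i, i ≠ j → x i = 0

/-- all coordinates but one are maximal -/
def Top (d : Fin 3 → ℕ) (x : V) : Prop := ∃ j : Fin 3, ∀ i, i ≠ j → x i = d i

/-- job NBR -/
def StNbr : Prop := ∀ (d : Fin 3 → ℕ), (∀ i, 1 ≤ d i) → ∀ (u v : V), InBox d u → InBox d v →
  Adj u v →
  (∃ w, InBox d w ∧ Adj v w ∧ w ≠ u ∧ lev w = lev u) ∨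
  (lev v = lev u + 1 ∧ Bot v ∧ ∃ w, InBox d w ∧ Adj v w ∧ w ≠ u ∧ lev w = lev u + 2) ∨
  (lev v = lev u - 1 ∧ Top d v ∧ ∃ w, InBox d w ∧ Adj v w ∧ w ≠ u ∧ lev w = lev u - 2)

/-- job UNIQ -/
def StUniq : Prop := ∀ (d : Fin 3 → ℕ), (∀ i, 1 ≤ d i) → ∀ (a b v : V), InBox d a → InBox d b →
  InBox d v → Bot a → Top d b → lev a = lev v → lev b = lev v →
  (Bot v → v = a) ∧ (Top d v → v = b)

/-- the strategy of N -/
def StStrat : Prop := ∀ d : Fin 3 → ℕ, (∀ i, 1 ≤ d i) → ∃ Inv : List V → Prop,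
  (∀ p, InBox d p → Inv [p]) ∧
  (∀ p q, InBox d p → InBox d q → Adj p q → Inv [q, p]) ∧
  (∀ P, Inv P → GoodPath P ∧ ∀ v ∈ P, InBox d v) ∧
  (∀ (u : V) (rest : List V) (v : V), Inv (u :: rest) → InBox d v → Adj u v → v ∉ u :: rest →
    GoodPath (v :: u :: rest) ∧ ∃ w, InBox d w ∧ Adj v w ∧ w ≠ u ∧
      (w ∉ v :: u :: rest → Inv (w :: v :: u :: rest)))

/-- job DYN -/
def StDyn : Prop := StAnn → StNbr → StUniq → StStrat

/-- loops with good heights are unknotted -/
def StCyc : Prop := ∀ (l : List V) (H : V → ℤ), 3 ≤ l.length → l.Nodup →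
  (∀ e ∈ l.zip (l.rotate 1), Adj e.1 e.2) → Heights l H → Unknotted (poly (l.map pt))

/-- closing loops of good paths are unknotted -/
def StLoop : Prop := ∀ (v u : V) (rest : List V) (w : V), GoodPath (v :: u :: rest) → Adj v w →
  w ≠ u → w ∈ v :: u :: rest → Unknotted (poly ((loop (v :: u :: rest) w).map pt))

/-- job LOOP -/
def StLoopJob : Prop := StCyc → StLoop

/-- job GAME -/
def StGame : Prop := StStrat → StLoop → StFinal

/-! ## Topological part (in `ℂ × ℝ`) -/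

/-- the linear coordinates: projection along (1,1,1) and level -/
def Th (x : R3) : ℂ × ℝ := (⟨x 0 - x 2, x 1 - x 2⟩, x 0 + x 1 + x 2)

/-- the target curve -/
def K0 : Set (ℂ × ℝ) := {p | ∃ θ : ℝ, p = ((Real.cos θ : ℂ), √2 * Real.sin θ)}

/-- the rhombus -/
def Rh : Set (ℂ × ℝ) := {p | ∃ x t : ℝ, |x| + |t| = 1 ∧ p = ((x : ℂ), √2 * t)}

/-- homeomorphisms isotopic to the identity -/
def Isot {X : Type} [TopologicalSpace X] (G : X ≃ₜ X) : Prop :=
  ∃ H : unitInterval → (X ≃ₜ X), Continuous (fun p : unitInterval × X => H p.1 p.2) ∧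
    (∀ x, H 0 x = x) ∧ ∀ x, H 1 x = G x

/-- job RND: `K0` is a round circle in the original coordinates, isotopies can be transported -/
def StRnd : Prop := ∀ l : List R3, AmbIso (poly (l.map Th)) K0 → Unknotted (poly l)

/-- job FIB -/
def StFib : Prop := ∀ e : ℂ × ℝ → ℝ, Continuous e → (∀ w : ℂ, Monotone (fun h : ℝ => e (w, h))) →
  ∃ G : (ℂ × ℝ) ≃ₜ (ℂ × ℝ), Isot G ∧ ∀ p, G p = (p.1, p.2 + e p)

/-- job LIFT -/
def StLift : Prop := ∀ (l : List V) (H : V → ℝ), 
  (∀ a ∈ l, ∀ b ∈ l, Above a b → (lev b : ℝ) - lev a ≤ H b - H a) →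
  ∃ e : ℂ × ℝ → ℝ, Continuous e ∧ (∀ w : ℂ, Monotone (fun h : ℝ => e (w, h))) ∧
    ∀ a ∈ l, ∀ b ∈ l, Adj a b → ∀ t : ℝ, 0 ≤ t → t ≤ 1 →
      ((1 - t) • Th (pt a) + t • Th (pt b)).2 + e ((1 - t) • Th (pt a) + t • Th (pt b)) =
        (1 - t) * H a + t * H b

/-- job SIMP: unit lattice edges meet only in common end points -/
def StSimp : Prop := ∀ a b c e : V, Adj a b → Adj c e → ∀ x : R3, x ∈ segment ℝ (pt a) (pt b) →
  x ∈ segment ℝ (pt c) (pt e) → (a = c ∧ b = e) ∨ (a = e ∧ b = c) ∨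
    ((x = pt a ∨ x = pt b) ∧ (x = pt c ∨ x = pt e))

/-- distinct edges of the closed polygon meet only in common end points -/
def SimplePoly (L : List (ℂ × ℝ)) : Prop :=
  ∀ i j : ℕ, ∀ (hi : i < L.length) (hj : j < L.length), i ≠ j → ∀ x : ℂ × ℝ,
    x ∈ segment ℝ L[i] (L[(i + 1) % L.length]'(Nat.mod_lt _ (by omega))) →
    x ∈ segment ℝ L[j] (L[(j + 1) % L.length]'(Nat.mod_lt _ (by omega))) →
    (x = L[i] ∨ x = L[(i + 1) % L.length]'(Nat.mod_lt _ (by omega))) ∧
    (x = L[j] ∨ x = L[(j + 1) % L.length]'(Nat.mod_lt _ (by omega)))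

/-- polygonal arc through the points of a list -/
def arc (X : List (ℂ × ℝ)) : Set (ℂ × ℝ) := {x | ∃ e ∈ X.zip X.tail, x ∈ segment ℝ e.1 e.2}

/-- job CH: the closed polygon consists of two ascending arcs -/
def StCh : Prop := ∀ L : List (ℂ × ℝ), 3 ≤ L.length → (L.map Prod.snd).Nodup →
  NoAlt (L.map Prod.snd) → SimplePoly L →
  ∃ (X Y : List (ℂ × ℝ)) (bot top : ℂ × ℝ), 2 ≤ X.length ∧ 2 ≤ Y.length ∧
    X.head? = some bot ∧ Y.head? = some bot ∧ X.getLast? = some top ∧ Y.getLast? = some top ∧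
    X.IsChain (fun a b => a.2 < b.2) ∧ Y.IsChain (fun a b => a.2 < b.2) ∧
    poly L = arc X ∪ arc Y ∧ arc X ∩ arc Y = {bot, top}

/-- `p` is affine near both ends of `[α, β]` -/
def LinEnds (p : ℝ → ℂ) (α β : ℝ) : Prop := ∃ (ε : ℝ) (c0 c1 : ℂ), 0 < ε ∧
  (∀ t ∈ Icc α (α + ε), p t = p α + ((t - α : ℝ) : ℂ) * c0) ∧
  (∀ t ∈ Icc (β - ε) β, p t = p β + ((β - t : ℝ) : ℂ) * c1)

/-- job GR: an ascending polygonal arc is a graph -/
def StGr : Prop := ∀ (X : List (ℂ × ℝ)) (bot top : ℂ × ℝ), 2 ≤ X.length →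
  X.head? = some bot → X.getLast? = some top → X.IsChain (fun a b => a.2 < b.2) →
  bot.2 < top.2 ∧ ∃ p : ℝ → ℂ, Continuous p ∧ p bot.2 = bot.1 ∧ p top.2 = top.1 ∧
    arc X = (fun t => (p t, t)) '' Icc bot.2 top.2 ∧ LinEnds p bot.2 top.2

/-- job STR -/
def StStr : Prop := ∀ (p q : ℝ → ℂ) (α β : ℝ), α < β → Continuous p → Continuous q →
  p α = q α → p β = q β → (∀ t ∈ Ioo α β, p t ≠ q t) → LinEnds p α β → LinEnds q α β →
  AmbIso ((fun t => (p t, t)) '' Icc α β ∪ (fun t => (q t, t)) '' Icc α β) Rh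

/-- job RHO -/
def StRho : Prop := AmbIso Rh K0

/-- job TRI -/
def StTri : Prop := (∀ {X : Type} [TopologicalSpace X] (A B C : Set X), AmbIso A B → AmbIso B C →
    AmbIso A C) ∧
  (∀ {X : Type} [TopologicalSpace X] (G : X ≃ₜ X) (A : Set X), Isot G → AmbIso A (G '' A)) ∧
  (∀ {X Y : Type} [TopologicalSpace X] [TopologicalSpace Y] (f : X ≃ₜ Y) (A B : Set X),
    AmbIso A B → AmbIso (f '' A) (f '' B))

/-- job CYC -/
def StCycJob : Prop := StTri → StRnd → StFib → StLift → StSimp → StCh → StGr → StStr → StRho → StCyc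

end Pool.Agent.K7.H37.UK
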